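import Pool.Agent.TH954.DescentMain

/-!
# Finite descent on subvarieties of powers of an elliptic curve

Let `E` be an elliptic curve over a number field `K` such that `E(K)` has rank at most one over the
ring of `K`-endomorphisms of `E` and the Tate-Shafarevich group of `E` over `K` is killed by some
`M ≥ 1`, and let `X` be a closed subvariety of `Eⁿ`. Coverings of `X` are the pullbacks of the
coverings of `Eⁿ`. For every `N` there is `N'` such that an everywhere locally soluble
`N N'`-covering of `X` always comes from a `K`-rational point of `X`, as far as the `N`-covering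
below it is concerned. In particular, if `X` has no rational point then some `Sel` of `X` is
empty.
-/

open IsDedekindDomain NumberField Pool.Agent.TH954

open scoped Classical in
theorem Pool.Agent.Results.MP_d37f77_nt.DescentOnPowersOfCurves.result
    (K : Type) [Field K] [NumberField K] (E : WeierstrassCurve K) [E.IsElliptic]
    (h1 : E.a₁ = 0) (h2 : E.a₂ = 0) (h3 : E.a₃ = 0)
    (h4 : IsIntegral ℤ E.a₄) (h6 : IsIntegral ℤ E.a₆)
    (hO : Module.rank ℤ E.toAffine.Point ≤ 1 ∨
      ∃ (α : E.toAffine.Point →+ E.toAffine.Point) (F : Fin 3 → MvPolynomial (Fin 3) K)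
        (t m : ℤ), EndoForms E α F ∧ t ^ 2 < 4 * m ∧
        (∀ T, α (α T) - t • α T + m • T = 0) ∧ Module.rank ℤ E.toAffine.Point ≤ 2)
    (M : ℕ) (hM1 : 1 ≤ M) (hM : ShaKilledBy E M)
    (n : ℕ) (S : Set (MvPolynomial (Fin n × Fin 3) K)) (hS : ∀ f ∈ S, ∃ d, MultiHom d f)
    (N : ℕ) (hN : 1 ≤ N) :
    ∃ N' : ℕ, 1 ≤ N' ∧ ∀ ξ : Fin n → (AlgebraicClosure K ≃ₐ[K] AlgebraicClosure K) →
        AlgPt E K, (∀ i, IsCocycle E (ξ i)) → (∀ i σ, (N * N') • ξ i σ = 0) →
      (∀ v : HeightOneSpectrum (𝓞 K), CoverPoint E S (N * N') ξ (v.adicCompletion K)) →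
      (∀ w : InfinitePlace K, CoverPoint E S (N * N') ξ w.Completion) →
      CoverPoint E S N (fun i σ => N' • ξ i σ) K :=
  descent_main E h1 h2 h3 h4 h6 hO M hM1 hM n S hS N hN
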