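import Mathlib
import Pool.Agent.TH715.CN.Cov2
import Pool.Agent.TH715.CN.Fin6

/-!
# Finite descent on curves of genus one in thin families

Let `D` be a product of `m` different primes congruent to 3 modulo 8. For a squarefree integer
`b₁ ∣ D` let `C_{b₁}` be the curve `N² = b₁ M⁴ - (D² / b₁) e⁴` of genus one, a 2-isogeny covering
of the congruent number curve `y² = x³ - D² x`. Its étale double coverings of the type of the dual
isogeny are the curves `b₁ M² - D e² = d X²`, `b₁ M² + D e² = b₁ d Y²` (with `N = d X Y`), for the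
nonzero integers `d`; every 2-covering of `C_{b₁}` factors through one of them. Exactly
`4 ^ (⌊(m - 1) / 2⌋ + 1)` of the curves `C_{b₁}` have points everywhere locally. Let `Q` be any set
of primes congruent to 3 modulo 8, at most `y`, with `|Q| ≥ y ^ (19 / 20)`. For at least five
ninths of the subsets `T` of `Q` with `m` elements, with `D` the product of the elements of `T`, all the
curves `C_{b₁}` with points everywhere locally, apart from those with `b₁ = ±1, ±D`, which have
rational points, have no rational points, and none of their étale double coverings has points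
everywhere locally.
-/

set_option autoImplicit false

namespace Pool.Agent.Results.MP_d37f77_nt.GenusOneThinFamilies

open Finset

open Pool.Agent.TH715.CN.ISO (Qu SQ Cov ELS Bad)

/-- the product of the elements of `T` -/
def prd (T : Finset ℕ) : ℤ := ∏ q ∈ T, (q : ℤ)

/-- no étale double covering (of the type of the dual isogeny) of the curve `C_{b₁}` has points
everywhere locally -/
def NoCover (D b₁ : ℤ) : Prop := ∀ d : ℤ, d ≠ 0 → ¬ ELS D b₁ d

/-- there are exactly `4 ^ (k + 1) - 4` everywhere locally solvable curves `C_{b₁}` without rational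
points, and for each of them no étale double covering has points everywhere locally -/
def Expl (D : ℤ) (k : ℕ) : Prop := (Bad D).ncard + 4 = 4 ^ (k + 1) ∧ ∀ b₁ ∈ Bad D, NoCover D b₁

/-- `C (m + 1) N ^ (-1 / 40)` -/
noncomputable def err (C : ℝ) (m N : ℕ) : ℝ := C * ((m : ℝ) + 1) * (N : ℝ) ^ (-(1 / 40) : ℝ)

/-- `Q` is a set of primes congruent to 3 modulo 8, at most `y`, with `|Q| ≥ y ^ (19 / 20)` -/
def IsThin (y : ℕ) (Q : Finset ℕ) : Prop :=
  (∀ q ∈ Q, q.Prime ∧ q % 8 = 3 ∧ q ≤ y) ∧ (y : ℝ) ^ (19 / 20 : ℝ) ≤ Q.card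

/-- the property used in the proof -/
def Aux (T : Finset ℕ) : Prop := T.Nonempty → (∀ q ∈ T, q.Prime ∧ q % 8 = 3) →
  Expl (prd T) ((T.card - 1) / 2)

open Classical in
/-- **Theorem.** There are `C ≥ 1` and `k` such that for all `m ≥ 1` and `y` and all sets `Q` of
primes congruent to 3 modulo 8, at most `y`, with `|Q| ≥ y ^ (19 / 20)` and
`|Q| ≥ C (m + 1) ^ k`, for at least `(5 / 9 - C (m + 1) |Q| ^ (-1 / 40)) binom(|Q|, m)` of the
subsets `T` of `Q` with `m` elements, with `D` the product of the elements of `T`, there are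
exactly `4 ^ (⌊(m - 1) / 2⌋ + 1) - 4` curves `C_{b₁}` with points everywhere locally and without
rational points, and for each of them no étale double covering has points everywhere locally. -/
theorem result : ∃ (C : ℝ) (k : ℕ), 1 ≤ C ∧ ∀ (m y : ℕ) (Q : Finset ℕ), 1 ≤ m → IsThin y Q →
      C * ((m : ℝ) + 1) ^ k ≤ Q.card →
      (5 / 9 - err C m Q.card) * (Q.card.choose m : ℝ) ≤
        ((Q.powersetCard m).filter (fun T => Expl (prd T) ((m - 1) / 2))).card := by
  obtain ⟨C, k, hC, h⟩ := Pool.Agent.TH715.CN.majority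
  refine ⟨C, k, hC, ?_⟩
  intro m y Q hm hQ hmQ
  have h1 := h Aux (fun j x hx hp h8 hS hne hT => by
      obtain ⟨h2, h3⟩ := Pool.Agent.TH715.CN.sel_four hx hp h8 hS
      have e : ((∏ q ∈ univ.image x, q : ℕ) : ℤ) = ∏ q ∈ univ.image x, (q : ℤ) := by
        push_cast
        rfl
      rw [e] at h2 h3
      have hss : Pool.Agent.TH841.SH.SelG 0 (∏ q ∈ univ.image x, (q : ℤ))
          (-(∏ q ∈ univ.image x, (q : ℤ))) ⊆ Pool.Agent.W307.SE.Sel
          (∏ q ∈ univ.image x, (q : ℤ)) (-(∏ q ∈ univ.image x, (q : ℤ))) := by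
        have hsub : ∀ (K : Type) [Field K] (D d1 d2 : ℤ),
            Pool.Agent.TH841.SH.LocC K 0 D (-D) d1 d2 →
            Pool.Agent.W307.SE.Loc K D (-D) d1 d2 := by
          rintro K _ D d1 d2 ⟨x, y, hy, hxy, hs1, hs2⟩
          rw [Int.cast_zero, sub_zero] at hxy hs1
          exact ⟨x, y, hy, hxy, hs1, hs2⟩
        rintro d ⟨a1, a2, a3, a4⟩
        exact ⟨a1, a2, hsub ℝ _ _ _ a3, fun p _ => hsub ℚ_[p] _ _ _ (a4 p)⟩
      have h4 := Pool.Agent.TH715.CN.ISO.bad_of hT hne (h2.subset hss)
        ((Set.ncard_le_ncard hss h2).trans h3)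
      exact ⟨h4.1, fun b₁ hb d hd => h4.2 b₁ hb d hd⟩) m y Q hQ.1 hQ.2 hmQ
  refine h1.trans (Nat.cast_le.2 (card_le_card fun T hT => ?_))
  rw [mem_filter] at hT ⊢
  refine ⟨hT.1, ?_⟩
  have hTm := mem_powersetCard.1 hT.1
  have h5 := hT.2 (by rw [← card_pos, hTm.2]; omega) fun q hq =>
    ⟨(hQ.1 q (hTm.1 hq)).1, (hQ.1 q (hTm.1 hq)).2.1⟩
  rw [hTm.2] at h5
  exact h5

end Pool.Agent.Results.MP_d37f77_nt.GenusOneThinFamilies
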