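import Mathlib
import Pool.Agent.TH841.FD.Main3
import Pool.Agent.TH841.FD.Covl

/-!
# Finite descent on the everywhere locally solvable quartics in one-parameter families

Let `A = D(t) u₀(t)`, `B = D(t) u₁(t)`, where `u₀`, `u₁`, `u₂ = u₀ - u₁` are polynomials with
integer coefficients, `u_k` a constant times a product of `n_k` irreducible polynomials, and
`D = c ∏ g_i`. For a squarefree divisor `b₁` of `A B` consider the curve of genus one
`C : N² = b₁ M⁴ - (A + B) M² e² + (A B / b₁) e⁴`. Its étale double coverings (with the Jacobian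
`y² = x (x - A) (x - B)`) are `D_d : b₁ M² - A e² = d x²`, `b₁ M² - B e² = b₁ d y²` (`N = d x y`), `d`
a squarefree integer, and every 2-covering of `C` factors through one of the `D_d`. We prove that
most of the curves `C` with points everywhere locally have no `D_d` with points everywhere locally.
-/

set_option autoImplicit false

namespace Pool.Agent.Results.MP_d37f77_nt.QuarticsInPencils

open Finset Polynomial

/-- the curve `C : N² = b₁ M⁴ - (A + B) M² e² + (A B / b₁) e⁴` has a point over `K`, with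
`(M, e) ≠ (0, 0)` -/
def Solvable (K : Type) [Field K] (A B b₁ : ℤ) : Prop := ∃ N M e : K, (M ≠ 0 ∨ e ≠ 0) ∧
  N ^ 2 = (b₁ : K) * M ^ 4 + ((-(A + B) : ℤ) : K) * M ^ 2 * e ^ 2 +
    ((A * B / b₁ : ℤ) : K) * e ^ 4

/-- the squarefree `b₁ ∣ A B` for which `C` has points everywhere locally -/
def ELS (A B : ℤ) : Set ℤ := {b₁ | Squarefree b₁ ∧ b₁ ∣ A * B ∧ Solvable ℝ A B b₁ ∧
  ∀ (p : ℕ) [Fact p.Prime], Solvable ℚ_[p] A B b₁}

/-- the double covering `D_d` of `C` has a point over `K` -/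
def Covering (K : Type) [Field K] (A B b₁ d : ℤ) : Prop := ∃ M e x y : K, (M ≠ 0 ∨ e ≠ 0) ∧
  (b₁ : K) * M ^ 2 - (A : K) * e ^ 2 = (d : K) * x ^ 2 ∧
  (b₁ : K) * M ^ 2 - (B : K) * e ^ 2 = (b₁ : K) * d * y ^ 2

/-- the `b₁` in `ELS A B` for which some covering `D_d` has points everywhere locally -/
def ELSCovered (A B : ℤ) : Set ℤ := {b₁ | b₁ ∈ ELS A B ∧ ∃ d : ℤ, Squarefree d ∧
  Covering ℝ A B b₁ d ∧ ∀ (p : ℕ) [Fact p.Prime], Covering ℚ_[p] A B b₁ d}

/-- `u_k = a_k ∏ f_{k,i}` -/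
noncomputable def u {n : Fin 3 → ℕ} (a : Fin 3 → ℤ) (f : ∀ k : Fin 3, Fin (n k) → ℤ[X])
    (k : Fin 3) : ℤ[X] := C (a k) * ∏ i, f k i

/-- `D = c ∏ g_i` -/
noncomputable def D {m : ℕ} (c : ℤ) (g : Fin m → ℤ[X]) : ℤ[X] := C c * ∏ i, g i

/-- `v` is a square modulo `f` in `ℚ[t]` -/
def SqMod (f v : ℤ[X]) : Prop := ∃ q : ℚ[X], f.map (Int.castRingHom ℚ) ∣
  (q ^ 2 - v.map (Int.castRingHom ℚ))

/-- `- D u₁`, `- D u₀`, `D u₀` -/
noncomputable def v {n : Fin 3 → ℕ} {m : ℕ} (a : Fin 3 → ℤ) (f : ∀ k : Fin 3, Fin (n k) → ℤ[X])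
    (c : ℤ) (g : Fin m → ℤ[X]) : Fin 3 → ℤ[X] :=
  ![-(D c g * u a f 1), -(D c g * u a f 0), D c g * u a f 0]

open Classical in
/-- the constant `κ = n₀ + n₁ - (n₂ + s) / 2 + r / 2`, where `s` is the number of the factors of
`u₂` modulo which `D u₀` is a square, and `r` the number of the `g_i` modulo which `u₀ u₁` is not
a square -/
noncomputable def κ {n : Fin 3 → ℕ} {m : ℕ} (a : Fin 3 → ℤ) (f : ∀ k : Fin 3, Fin (n k) → ℤ[X])
    (c : ℤ) (g : Fin m → ℤ[X]) : ℝ :=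
  (n 0 : ℝ) + n 1 -
    ((n 2 : ℝ) + (univ.filter (fun i => SqMod (f 2 i) (D c g * u a f 0))).card) / 2 +
    ((univ.filter (fun i => ¬ SqMod (g i) (u a f 0 * u a f 1))).card : ℝ) / 2

open Classical in
/-- the balance condition: `2 n_k + s_k ≤ n₀ + n₁ + n₂` for all `k`, where `s_k` is the number of
the factors `f_{k,i}` modulo which `v_k` is a square -/
def Balanced {n : Fin 3 → ℕ} {m : ℕ} (a : Fin 3 → ℤ) (f : ∀ k : Fin 3, Fin (n k) → ℤ[X])
    (c : ℤ) (g : Fin m → ℤ[X]) : Prop :=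
  ∀ k, 2 * n k + (univ.filter (fun i => SqMod (f k i) (v a f c g k))).card ≤ n 0 + n 1 + n 2

open Classical in
/-- **Theorem.** (1) If `C` has a rational point and `b₁ ∈ ELS A B`, then `b₁ ∈ ELSCovered A B`.
(2) Let `u_k = a_k ∏_{i < n_k} f_{k,i}`, `k = 0, 1, 2`, with `u₀ - u₁ = u₂`, and
`D = c ∏_{i < m} g_i`, where `a_k`, `c` are nonzero and the `n₀ + n₁ + n₂ + m` polynomials
`f_{k,i}`, `g_i` with integer coefficients are irreducible of positive degree and pairwise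
non-associated; assume the balance condition. For all `δ, ε > 0` and `L` there is `M₀` such that for
`M ≥ M₀` and `|N| ≤ M ^ L`: the sum of `#ELSCovered A B`, `A = (D u₀)(t)`, `B = (D u₁)(t)`, over the
integers `N < t ≤ N + M` with `A`, `B`, `A - B` nonzero is at most `(log M) ^ (δ - κ log 2)` times the
sum of `#ELS A B` over the same `t`; and for all `N < t ≤ N + M` with at most `ε M` exceptions the
numbers `A`, `B`, `A - B` are nonzero and
`#ELSCovered A B ≤ (log M) ^ (δ - κ log 2) * #ELS A B`. -/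
theorem result :
    (∀ A B b₁ : ℤ, A ≠ B → b₁ ∈ ELS A B → Solvable ℚ A B b₁ → b₁ ∈ ELSCovered A B) ∧
    ∀ (n : Fin 3 → ℕ) (m : ℕ) (a : Fin 3 → ℤ) (f : ∀ k : Fin 3, Fin (n k) → ℤ[X])
    (c : ℤ) (g : Fin m → ℤ[X]) (_ : ∀ k, a k ≠ 0) (_ : c ≠ 0)
    (_ : ∀ k i, Irreducible (f k i) ∧ 0 < (f k i).natDegree)
    (_ : ∀ i, Irreducible (g i) ∧ 0 < (g i).natDegree)
    (_ : ∀ k i l j, (⟨k, i⟩ : Σ k : Fin 3, Fin (n k)) ≠ ⟨l, j⟩ → ¬ Associated (f k i) (f l j))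
    (_ : ∀ i j, i ≠ j → ¬ Associated (g i) (g j)) (_ : ∀ k i j, ¬ Associated (f k i) (g j))
    (_ : u a f 0 - u a f 1 = u a f 2) (_ : Balanced a f c g)
    (δ ε : ℝ) (L : ℕ) (_ : 0 < δ) (_ : 0 < ε),
    ∃ M₀ : ℕ, ∀ (N : ℤ) (M : ℕ), M₀ ≤ M → |N| ≤ (M : ℤ) ^ L →
      ∑ t ∈ (Ioc N (N + (M : ℤ))).filter (fun t => ∀ k, (D c g * u a f k).eval t ≠ 0),
        ((ELSCovered ((D c g * u a f 0).eval t) ((D c g * u a f 1).eval t)).ncard : ℝ) ≤
      (Real.log M) ^ (δ - κ a f c g * Real.log 2) *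
        ∑ t ∈ (Ioc N (N + (M : ℤ))).filter (fun t => ∀ k, (D c g * u a f k).eval t ≠ 0),
          ((ELS ((D c g * u a f 0).eval t) ((D c g * u a f 1).eval t)).ncard : ℝ) ∧
      (((Ioc N (N + (M : ℤ))).filter (fun t => ¬ ∀ A B : ℤ,
        A = (D c g * u a f 0).eval t → B = (D c g * u a f 1).eval t →
        A ≠ 0 ∧ B ≠ 0 ∧ A ≠ B ∧ ((ELSCovered A B).ncard : ℝ) ≤
          (Real.log M) ^ (δ - κ a f c g * Real.log 2) * ((ELS A B).ncard : ℝ))).card : ℝ) ≤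
        ε * M := by
  refine ⟨fun A B b₁ hAB hs hr => Pool.Agent.TH841.FD.rat_mem hAB hs hr, ?_⟩
  intro n m a f c g ha hc hf hg hff hgg hfg hu hb δ ε L hδ hε
  have hirr : Pool.Agent.TH841.PT.Irr (Pool.Agent.TH841.TR.allf g f) := by
    refine ⟨?_, ?_, ?_⟩
    · rintro (x | i)
      · exact (hf x.1 x.2).1
      · exact (hg i).1
    · rintro (x | i)
      · exact (hf x.1 x.2).2
      · exact (hg i).2
    · rintro (x | i) (y | j) hxy
      · exact hff x.1 x.2 y.1 y.2 (fun h => hxy (congrArg Sum.inl h))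
      · exact hfg x.1 x.2 j
      · exact fun h => hfg y.1 y.2 i h.symm
      · exact hgg i j (fun h => hxy (congrArg Sum.inr h))
  have hbal : Pool.Agent.TH841.TR.Bal (Pool.Agent.TH841.LS.DG c g) a f :=
    Pool.Agent.TH841.TR.bal_of (v := v a f c g) rfl rfl rfl fun k => hb k
  obtain ⟨M1, h1⟩ := Pool.Agent.TH841.FD.pencil Pool.Agent.TH841.FD.COVLf.covl a f c g ha hc hirr
    hu hbal δ L hδ
  obtain ⟨M2, h2⟩ := Pool.Agent.TH841.FD.pencil_ae Pool.Agent.TH841.FD.COVLf.covl a f c g ha hc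
    hirr hu hbal δ ε L hδ hε
  exact ⟨M1 + M2, fun N M hM hN => ⟨h1 N M (by omega) hN, h2 N M (by omega) hN⟩⟩

end Pool.Agent.Results.MP_d37f77_nt.QuarticsInPencils
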