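import Mathlib
import Pool.Agent.TH213.SP.FinL

/-!
# 2-descent on almost all quadratic twists of a split hyperelliptic curve finds only the trivial
coverings

Let `ℓ k = α k * x + β k * w` (`k ∈ K`, `|K| = 2 g + 2 ≥ 6`) be linear forms with integral
coefficients, in general position in the sense of `Generic`.  The 2-coverings of the curve
`C d : d y² = ∏ k, ℓ k (x, w)` of genus `g` are the curves `D δ : ℓ k (x, w) = δ k * y k ^ 2`,
where `d * ∏ k, δ k` is a square.  The `2 g + 2` Weierstrass points of `C d` (`ℓ i = 0`) lift to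
`2 g + 2` different coverings: those for which the numbers `det i k * δ k`, `k ≠ i`, are in the same
square class.  For all squarefree `d`, `|d| ≤ X`, with at most `C X (log X)^(-1/5)` exceptions,
these are the only coverings with points everywhere locally.
-/

set_option autoImplicit false

namespace Pool.Agent.Results.MP_d37f77_nt.TwoCoveringsOfTwists

open Finset

variable {K : Type}

/-- the determinant of the `i`-th and the `k`-th linear form -/
def det (α β : K → ℤ) (i k : K) : ℤ := α i * β k - α k * β i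

/-- the linear forms are pairwise independent, and for `i ≠ k` the products
`det i l * det k l`, `l ≠ i, k`, are not all in the same square class -/
def Generic (α β : K → ℤ) : Prop :=
  (∀ i k, i ≠ k → det α β i k ≠ 0) ∧
  ∀ i k, i ≠ k → ∃ l l', l ≠ i ∧ l ≠ k ∧ l' ≠ i ∧ l' ≠ k ∧
    ¬ IsSquare (det α β i l * det α β i l' * (det α β k l * det α β k l'))

/-- the covering `D δ : α k * x + β k * w = δ k * y k ^ 2` has a point over the field `F` -/
def HasPoint (α β δ : K → ℤ) (F : Type) [Field F] : Prop :=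
  ∃ x w : F, (x ≠ 0 ∨ w ≠ 0) ∧ ∀ k, ∃ y : F, (α k : F) * x + β k * w = δ k * y ^ 2

/-- `D δ` is a 2-covering of `C d` -/
def IsCovering [Fintype K] (d : ℤ) (δ : K → ℤ) : Prop :=
  (∀ k, δ k ≠ 0) ∧ IsSquare (d * ∏ k, δ k)

/-- `D δ` has points everywhere locally -/
def LocallySoluble (α β δ : K → ℤ) : Prop :=
  HasPoint α β δ ℝ ∧ ∀ (p : ℕ) [Fact p.Prime], HasPoint α β δ ℚ_[p]

/-- `D δ` and `D δ'` are the same covering: `δ' k = c * δ k * (square)` for all `k` -/
def Same (δ δ' : K → ℤ) : Prop := ∀ k l, IsSquare (δ k * δ' k * (δ l * δ' l))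

/-- `D δ` is the covering to which the `i`-th Weierstrass point lifts -/
def Through (α β δ : K → ℤ) (i : K) : Prop :=
  ∀ k l, k ≠ i → l ≠ i → IsSquare (det α β i k * δ k * (det α β i l * δ l))

theorem result (K : Type) [Fintype K] (α β : K → ℤ) (hK : 6 ≤ Fintype.card K)
    (hev : Even (Fintype.card K)) (hg : Generic α β) :
    (∃ C : ℝ, ∀ X : ℕ, 3 ≤ X →
      ({d : ℤ | d.natAbs ≤ X ∧ Squarefree d ∧
        ¬ ∀ δ, IsCovering d δ → (LocallySoluble α β δ ↔ ∃! i, Through α β δ i)}.ncard : ℝ) ≤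
          C * X * (Real.log X) ^ (-(1 / 5 : ℝ))) ∧
    ∀ (d : ℤ) (i : K), d ≠ 0 → (∃ δ, IsCovering d δ ∧ Through α β δ i) ∧
      ∀ δ, IsCovering d δ → Through α β δ i → HasPoint α β δ ℚ ∧
        (∀ j, Through α β δ j → j = i) ∧
        ∀ δ', IsCovering d δ' → (Through α β δ' i ↔ Same δ δ') := by
  classical
  have huniq : ∀ (δ : K → ℤ) (i j : K), (∀ k, δ k ≠ 0) → Through α β δ i → Through α β δ j →
      j = i := by
    intro δ i j hδ hi hj
    by_contra hji
    obtain ⟨l, l', h1, h2, h3, h4, h5⟩ := hg.2 i j (Ne.symm hji)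
    apply h5
    obtain ⟨r, hr⟩ := hi l l' h1 h3
    obtain ⟨r', hr'⟩ := hj l l' h2 h4
    apply Pool.Agent.TH213.SP.sq_of_mul (a := δ l * δ l') (b := r * r')
      (mul_ne_zero (hδ l) (hδ l'))
    linear_combination (det α β j l * δ l * (det α β j l' * δ l')) * hr + r * r * hr'
  have hrat : ∀ (δ : K → ℤ) (i : K), (∀ k, δ k ≠ 0) → Through α β δ i → HasPoint α β δ ℚ := by
    intro δ i hδ hi
    obtain ⟨k0, hk0⟩ : ∃ k, k ≠ i := by
      have : Nontrivial K := Fintype.one_lt_card_iff_nontrivial.mp (by omega)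
      exact exists_ne i
    have hdet : (det α β i k0 : ℚ) ≠ 0 := by exact_mod_cast hg.1 i k0 (Ne.symm hk0)
    have hδ0 : (δ k0 : ℚ) ≠ 0 := by exact_mod_cast hδ k0
    refine ⟨-(det α β i k0 * δ k0) * β i, (det α β i k0 * δ k0) * α i, ?_, fun k => ?_⟩
    · by_contra h
      push Not at h
      obtain ⟨h1, h2⟩ := h
      have h3 : (β i : ℚ) = 0 := by
        rcases mul_eq_zero.1 h1 with h | h
        · exact absurd (neg_eq_zero.1 h) (mul_ne_zero hdet hδ0)
        · exact h
      have h4 : (α i : ℚ) = 0 := by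
        rcases mul_eq_zero.1 h2 with h | h
        · exact absurd h (mul_ne_zero hdet hδ0)
        · exact h
      have h5 : β i = 0 := by exact_mod_cast h3
      have h6 : α i = 0 := by exact_mod_cast h4
      apply hg.1 i k0 (Ne.symm hk0)
      unfold det
      rw [h5, h6]
      ring
    · by_cases hki : k = i
      · subst hki
        exact ⟨0, by ring⟩
      · obtain ⟨r, hr⟩ := hi k k0 hki hk0
        have hδk : (δ k : ℚ) ≠ 0 := by exact_mod_cast hδ k
        refine ⟨r / δ k, ?_⟩
        have hr' : (det α β i k : ℚ) * δ k * (det α β i k0 * δ k0) = r * r := by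
          exact_mod_cast hr
        have hd : (det α β i k : ℚ) = α i * β k - α k * β i := by
          unfold det
          push_cast
          ring
        field_simp
        rw [hd] at hr'
        linear_combination hr'
  have hsame : ∀ (d : ℤ) (i : K) (δ δ' : K → ℤ), d ≠ 0 → IsCovering d δ → IsCovering d δ' →
      Through α β δ i → (Through α β δ' i ↔ Same δ δ') := by
    intro d i δ δ' hd hδ hδ' hi
    constructor
    · intro hi'
      have h1 : ∀ k l, k ≠ i → l ≠ i → IsSquare (δ k * δ' k * (δ l * δ' l)) := by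
        intro k l hk hl
        obtain ⟨r, hr⟩ := hi k l hk hl
        obtain ⟨r', hr'⟩ := hi' k l hk hl
        apply Pool.Agent.TH213.SP.sq_of_mul (a := det α β i k * det α β i l) (b := r * r')
          (mul_ne_zero (hg.1 i k (Ne.symm hk)) (hg.1 i l (Ne.symm hl)))
        linear_combination (det α β i k * δ' k * (det α β i l * δ' l)) * hr + r * r * hr'
      have h2 : ∀ l, l ≠ i → IsSquare (δ i * δ' i * (δ l * δ' l)) := by
        intro l hl
        choose v hv using fun k : {k // k ≠ i} => h1 k l k.2 hl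
        obtain ⟨a, ha⟩ := hδ.2
        obtain ⟨b, hb⟩ := hδ'.2
        set S : ℤ := ∏ k ∈ univ.erase i, (δ k * δ' k) with hS
        have hS0 : S ≠ 0 := prod_ne_zero_iff.2 fun k _ => mul_ne_zero (hδ.1 k) (hδ'.1 k)
        have e1 : d ^ 2 * (δ i * δ' i * S) = (a * b) ^ 2 := by
          have e2 : δ i * δ' i * S = (∏ k, δ k) * ∏ k, δ' k := by
            rw [hS, mul_prod_erase univ (fun k => δ k * δ' k) (mem_univ i), prod_mul_distrib]
          rw [e2]
          linear_combination (d * ∏ k, δ' k) * ha + a * a * hb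
        obtain ⟨u, hu⟩ := Pool.Agent.TH213.SP.sq_of_mul hd e1
        obtain ⟨m, hm⟩ : ∃ m, (univ.erase i).card = 2 * m + 1 := by
          obtain ⟨n, hn⟩ := hev
          rw [card_erase_of_mem (mem_univ i), card_univ]
          exact ⟨n - 1, by omega⟩
        obtain ⟨w, hw⟩ : ∃ w, S * (δ l * δ' l) ^ (2 * m + 1) = w ^ 2 := by
          refine ⟨∏ k ∈ (univ.erase i).attach, v ⟨k.1, ne_of_mem_erase k.2⟩, ?_⟩
          rw [hS, ← hm, ← prod_const, ← prod_mul_distrib, ← prod_pow,
            ← prod_attach (univ.erase i)]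
          refine prod_congr rfl fun k _ => ?_
          rw [hv ⟨k.1, ne_of_mem_erase k.2⟩]
          ring
        apply Pool.Agent.TH213.SP.sq_of_mul (a := S * (δ l * δ' l) ^ m) (b := u * w)
          (mul_ne_zero hS0 (pow_ne_zero m (mul_ne_zero (hδ.1 l) (hδ'.1 l))))
        have e3 : (S * (δ l * δ' l) ^ m) ^ 2 * (δ i * δ' i * (δ l * δ' l)) =
            (δ i * δ' i * S) * (S * (δ l * δ' l) ^ (2 * m + 1)) := by ring
        rw [e3, hu, hw]
        ring
      intro k l
      by_cases hk : k = i
      · by_cases hl : l = i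
        · rw [hk, hl]
          exact ⟨δ i * δ' i, rfl⟩
        · rw [hk]
          exact h2 l hl
      · by_cases hl : l = i
        · rw [hl, mul_comm]
          exact h2 k hk
        · exact h1 k l hk hl
    · intro hs k l hk hl
      obtain ⟨r, hr⟩ := hi k l hk hl
      obtain ⟨r', hr'⟩ := hs k l
      apply Pool.Agent.TH213.SP.sq_of_mul (a := δ k * δ l) (b := r * r')
        (mul_ne_zero (hδ.1 k) (hδ.1 l))
      linear_combination (δ k * δ' k * (δ l * δ' l)) * hr + r * r * hr'
  refine ⟨?_, fun d i hd => ⟨?_, fun δ hδ hi => ⟨hrat δ i hδ.1 hi, fun j hj =>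
    huniq δ i j hδ.1 hi hj, fun δ' hδ' => hsame d i δ δ' hd hδ hδ' hi⟩⟩⟩
  · obtain ⟨C, hC⟩ := Pool.Agent.TH213.SP.finl α β hK hev hg
    refine ⟨C, fun X hX => le_trans ?_ (hC X hX)⟩
    refine Nat.cast_le.2 (Set.ncard_le_ncard ?_ (Pool.Agent.TH213.SP.fin_le X _))
    rintro d ⟨h1, h2, h3⟩
    refine ⟨h1, h2, ?_⟩
    obtain ⟨δ, h4⟩ := not_forall.1 h3
    obtain ⟨hδ, h4⟩ := Classical.not_imp.1 h4
    have hls : ∀ i, Through α β δ i → LocallySoluble α β δ := by
      intro i hi
      obtain ⟨x, w, hxw, hy⟩ := hrat δ i hδ.1 hi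
      refine ⟨⟨x, w, ?_, fun k => ?_⟩, fun p _ => ⟨x, w, ?_, fun k => ?_⟩⟩
      · rcases hxw with h | h
        · exact Or.inl (by exact_mod_cast h)
        · exact Or.inr (by exact_mod_cast h)
      · obtain ⟨y, hy⟩ := hy k
        exact ⟨y, by exact_mod_cast hy⟩
      · rcases hxw with h | h
        · exact Or.inl (by exact_mod_cast h)
        · exact Or.inr (by exact_mod_cast h)
      · obtain ⟨y, hy⟩ := hy k
        exact ⟨y, by exact_mod_cast hy⟩
    have h5 : LocallySoluble α β δ ∧ ¬ ∃ i, Through α β δ i := by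
      by_cases hE : ∃ i, Through α β δ i
      · exfalso
        apply h4
        obtain ⟨i, hi⟩ := hE
        exact ⟨fun _ => ⟨i, hi, fun j hj => huniq δ i j hδ.1 hi hj⟩, fun _ => hls i hi⟩
      · refine ⟨?_, hE⟩
        by_contra hno
        apply h4
        exact ⟨fun h => absurd h hno, fun ⟨i, hi, _⟩ => absurd ⟨i, hi⟩ hE⟩
    refine ⟨δ, hδ.1, hδ.2, fun p _ => h5.1.2 p, ?_⟩
    intro i
    by_contra h6
    push Not at h6
    apply h5.2
    refine ⟨i, fun k l hk hl => ?_⟩
    obtain ⟨r, hr⟩ := h6 k l hk hl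
    refine ⟨r, ?_⟩
    rw [← hr]
    change det α β i k * δ k * (det α β i l * δ l) = δ k * δ l * (det α β i k * det α β i l)
    ring
  · refine ⟨fun k => if k = i then d * ∏ l ∈ univ.erase i, det α β i l else det α β i k,
      ⟨fun k => ?_, ?_⟩, fun k l hk hl => ?_⟩
    · have hprod : ∏ l ∈ univ.erase i, det α β i l ≠ 0 :=
        prod_ne_zero_iff.2 fun l hl => hg.1 i l (Ne.symm (ne_of_mem_erase hl))
      beta_reduce
      by_cases hk : k = i
      · rw [if_pos hk]
        exact mul_ne_zero hd hprod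
      · rw [if_neg hk]
        exact hg.1 i k (Ne.symm hk)
    · rw [← mul_prod_erase univ _ (mem_univ i), if_pos rfl]
      have h1 : ∏ k ∈ univ.erase i, (if k = i then d * ∏ l ∈ univ.erase i, det α β i l
          else det α β i k) = ∏ k ∈ univ.erase i, det α β i k :=
        prod_congr rfl fun k hk => if_neg (ne_of_mem_erase hk)
      rw [h1]
      exact ⟨d * ∏ l ∈ univ.erase i, det α β i l, by ring⟩
    · beta_reduce
      rw [if_neg hk, if_neg hl]
      exact ⟨det α β i k * det α β i l, by ring⟩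

end Pool.Agent.Results.MP_d37f77_nt.TwoCoveringsOfTwists
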